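import Pool.Agent.helper1.UN.SpecU

/-! Row VCA of project UN, block H. -/

set_option autoImplicit false

open NumberField Complex MeasureTheory NumberField.Units NumberField.Units.dirichletUnitTheorem

open scoped Classical

namespace Pool.Agent.UN

theorem VCA (hVFN : VFN_stmt) (hVLV : VLV_stmt) : VCA_stmt := by
  intro K _ _ τ F hF hu
  obtain ⟨-, v2, -, v4, v5, -, -⟩ := hVLV K
  -- the linear form
  obtain ⟨Lf, hLf⟩ : ∃ Lf : logSpace K → ℝ, ∀ l, Lf l = ∑ w : InfinitePlace K, (w.mult : ℝ) * τ w * lv l w :=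
    ⟨_, fun _ => rfl⟩
  have hadd : ∀ l s, Lf (l + s) = Lf l + Lf s := by
    intro l s
    rw [hLf, hLf, hLf, ← Finset.sum_add_distrib]
    refine Finset.sum_congr rfl fun w _ => ?_
    rw [v2]
    ring
  have hE : ∀ l s, cexp ((Lf (l + s) : ℂ) * I) = cexp ((Lf l : ℂ) * I) * cexp ((Lf s : ℂ) * I) := by
    intro l s
    rw [hadd, ← Complex.exp_add]
    congr 1
    push_cast
    ring
  have hgoal : (∫ l in F, cexp (((∑ w : InfinitePlace K, (w.mult : ℝ) * τ w * lv l w : ℝ) : ℂ) * I)) =
      ∫ l in F, cexp ((Lf l : ℂ) * I) := by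
    refine integral_congr_ae (Filter.Eventually.of_forall fun l => ?_)
    simp only [hLf]
  rw [hgoal]
  by_cases h : ∃ s, cexp ((Lf s : ℂ) * I) ≠ 1
  · right
    obtain ⟨s, hs⟩ := h
    have hinv : ∀ v ∈ unitLattice K, ∀ l, cexp ((Lf (l + v) : ℂ) * I) = cexp ((Lf l : ℂ) * I) := by
      intro v hv l
      obtain ⟨x, -, hx⟩ := hv
      have h1 : v = lu (Additive.toMul x) := hx.symm
      have h2 : cexp ((Lf v : ℂ) * I) = 1 := by
        have h3 : Lf v = ∑ w : InfinitePlace K, (w.mult : ℝ) * τ w *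
            Real.log (w (((Additive.toMul x : (𝓞 K)ˣ) : 𝓞 K) : K)) := by
          rw [hLf, h1]
          refine Finset.sum_congr rfl fun w _ => ?_
          rw [v4]
        rw [h3]
        exact hu _
      rw [hE, h2, mul_one]
    have h1 := (hVFN K F (fun l => cexp ((Lf l : ℂ) * I)) s hF hinv).2
    have h2 : (∫ l in F, cexp ((Lf (l + s) : ℂ) * I)) =
        (∫ l in F, cexp ((Lf l : ℂ) * I)) * cexp ((Lf s : ℂ) * I) := by
      rw [← integral_mul_const]
      refine integral_congr_ae (Filter.Eventually.of_forall fun l => ?_)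
      simp only [hE]
    have h3 : (∫ l in F, cexp ((Lf l : ℂ) * I)) * cexp ((Lf s : ℂ) * I) =
        ∫ l in F, cexp ((Lf l : ℂ) * I) := by
      rw [← h2]
      exact h1
    have h4 : (∫ l in F, cexp ((Lf l : ℂ) * I)) * (cexp ((Lf s : ℂ) * I) - 1) = 0 := by
      rw [mul_sub, mul_one, h3, sub_self]
    rcases mul_eq_zero.1 h4 with h5 | h5
    · exact h5
    · exact absurd (sub_eq_zero.1 h5) hs
  · left
    push Not at h
    intro w w'
    by_contra hne
    have hd : τ w - τ w' ≠ 0 := sub_ne_zero.2 hne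
    have hm : ∀ x : InfinitePlace K, (x.mult : ℝ) ≠ 0 := fun x => by
      exact_mod_cast InfinitePlace.mult_ne_zero
    obtain ⟨c, hc⟩ : ∃ c : ℝ, c = Real.pi / (τ w - τ w') := ⟨_, rfl⟩
    obtain ⟨s, hs⟩ : ∃ s : InfinitePlace K → ℝ, ∀ x, s x =
        c * ((if x = w then ((x.mult : ℝ))⁻¹ else 0) - (if x = w' then ((x.mult : ℝ))⁻¹ else 0)) :=
      ⟨_, fun _ => rfl⟩
    have key : ∀ g : InfinitePlace K → ℝ, ∑ x, (x.mult : ℝ) * g x * s x = c * (g w - g w') := by
      intro g
      have h1 : ∀ x ∈ (Finset.univ : Finset (InfinitePlace K)), (x.mult : ℝ) * g x * s x =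
          c * ((if x = w then g x else 0) - (if x = w' then g x else 0)) := by
        intro x _
        rw [hs]
        have h2 := mul_inv_cancel₀ (hm x)
        by_cases hx : x = w
        · by_cases hx' : x = w'
          · rw [if_pos hx, if_pos hx', if_pos hx, if_pos hx']
            ring
          · rw [if_pos hx, if_neg hx', if_pos hx, if_neg hx']
            linear_combination (c * g x) * h2
        · by_cases hx' : x = w'
          · rw [if_neg hx, if_pos hx', if_neg hx, if_pos hx']
            linear_combination (-(c * g x)) * h2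
          · rw [if_neg hx, if_neg hx', if_neg hx, if_neg hx']
            ring
      rw [Finset.sum_congr rfl h1, ← Finset.mul_sum, Finset.sum_sub_distrib, Finset.sum_ite_eq',
        Finset.sum_ite_eq', if_pos (Finset.mem_univ _), if_pos (Finset.mem_univ _)]
    obtain ⟨l, hl⟩ := v5 s (by
      have := key (fun _ => 1)
      simp only [mul_one, sub_self, mul_zero] at this
      exact this)
    have h1 : Lf l = Real.pi := by
      rw [hLf]
      have h2 : ∑ x, (x.mult : ℝ) * τ x * lv l x = ∑ x, (x.mult : ℝ) * τ x * s x :=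
        Finset.sum_congr rfl fun x _ => by rw [hl]
      rw [h2, key τ, hc, div_mul_cancel₀ _ hd]
    have h2 := h l
    rw [h1, Complex.exp_pi_mul_I] at h2
    norm_num at h2

end Pool.Agent.UN
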